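import Pool.Agent.Z15.V.Stm
import Pool.Agent.T2h94.Q15.WDG

/-!
Products of classes of divisors by induction on the number of factors (task V_FAM of helper15).
-/

set_option autoImplicit false

namespace Pool.Agent.T2h43.V15

open Module Pool.Agent.Y90 Pool.Agent.W546.GHC Pool.Agent.H204R3.CM Pool.Agent.Z15.V
open Pool.Agent.T2h94.Q15

variable {W : Type*} [AddCommGroup W] [Module ℚ W]

/-- the summand of a product of classes of divisors and a form -/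
def term {c k i : ℕ} (e : (Fin c × Fin 2) ⊕ Fin k ≃ Fin i) (B : Fin c → W [⋀^Fin 2]→ₗ[ℚ] ℚ)
    (η : W [⋀^Fin k]→ₗ[ℚ] ℚ) (u : Fin i → W) : ℚ :=
  (∏ s, B s ![u (e (Sum.inl (s, 0))), u (e (Sum.inl (s, 1)))]) *
    η (fun r => u (e (Sum.inr r)))

lemma sign_sq {i : ℕ} (ρ : Equiv.Perm (Fin i)) :
    ((Equiv.Perm.sign ρ : ℤ) : ℚ) * ((Equiv.Perm.sign ρ : ℤ) : ℚ) = 1 := by
  rw [← Int.cast_mul, ← Units.val_mul, Int.units_mul_self]; simp

lemma change {i : ℕ} (ρ : Equiv.Perm (Fin i)) (ψ : Equiv.Perm (Fin i) → ℚ) :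
    ∑ σ : Equiv.Perm (Fin i), ((Equiv.Perm.sign σ : ℤ) : ℚ) * ψ (σ * ρ) =
      ((Equiv.Perm.sign ρ : ℤ) : ℚ) *
        ∑ σ : Equiv.Perm (Fin i), ((Equiv.Perm.sign σ : ℤ) : ℚ) * ψ σ := by
  rw [← Equiv.sum_comp (Equiv.mulRight ρ) (fun σ => ((Equiv.Perm.sign σ : ℤ) : ℚ) * ψ σ),
    Finset.mul_sum]
  refine Finset.sum_congr rfl fun σ _ => ?_
  simp only [Equiv.coe_mulRight, Equiv.Perm.sign_mul, Units.val_mul, Int.cast_mul]
  linear_combination (-((Equiv.Perm.sign σ : ℤ) : ℚ) * ψ (σ * ρ)) * sign_sq ρ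

theorem exists_form (X : AV) (𝒟 : ∀ _ i : ℕ, Submodule ℚ (X.H [⋀^Fin i]→ₗ[ℚ] ℚ))
    (h0 : ∀ i, 𝒟 0 i = ⊤)
    (hs : ∀ (c i : ℕ), ∀ η ∈ 𝒟 c i, ∀ B : X.H [⋀^Fin 2]→ₗ[ℚ] ℚ, IsHodge X.per B →
      ∀ g : X.H [⋀^Fin (i + 2)]→ₗ[ℚ] ℚ, (∀ x : Fin (i + 2) → X.H, g x =
        ∑ σ : Equiv.Perm (Fin (i + 2)), ((Equiv.Perm.sign σ : ℤ) : ℚ) *
          (B ![x (σ 0), x (σ 1)] * η (fun l => x (σ l.succ.succ)))) → g ∈ 𝒟 (c + 1) (i + 2))
    (c : ℕ) : ∀ (i k : ℕ) (e : (Fin c × Fin 2) ⊕ Fin k ≃ Fin i)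
      (B : Fin c → X.H [⋀^Fin 2]→ₗ[ℚ] ℚ) (η : X.H [⋀^Fin k]→ₗ[ℚ] ℚ),
      (∀ s, IsHodge X.per (B s)) → ∃ g ∈ 𝒟 c i, ∀ v : Fin i → X.H, g v =
        ∑ σ : Equiv.Perm (Fin i), ((Equiv.Perm.sign σ : ℤ) : ℚ) *
          term e B η (fun m => v (σ m)) := by
  induction c with
  | zero =>
    intro i k e B η _
    let e0 : Fin k ≃ Fin i := (Equiv.emptySum (Fin 0 × Fin 2) (Fin k)).symm.trans e
    have he0 : ∀ r, e0 r = e (Sum.inr r) := fun r => rfl
    refine ⟨MultilinearMap.alternatization ((η : MultilinearMap ℚ (fun _ : Fin k => X.H) ℚ).domDomCongr e0),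
      by rw [h0]; trivial, fun v => ?_⟩
    rw [MultilinearMap.alternatization_apply]
    refine Finset.sum_congr rfl fun σ _ => ?_
    rw [MultilinearMap.domDomCongr_apply, Units.smul_def, zsmul_eq_mul,
      MultilinearMap.domDomCongr_apply]
    simp only [term, Finset.univ_eq_empty, Finset.prod_empty, one_mul, he0]
    rfl
  | succ c ih =>
    intro i k e B η hB
    have hcard : i = 2 * c + k + 2 := by
      have := Fintype.card_congr e
      simp only [Fintype.card_sum, Fintype.card_prod, Fintype.card_fin] at this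
      omega
    obtain ⟨i', rfl⟩ : ∃ i', i = i' + 2 := ⟨2 * c + k, hcard⟩
    have hcard' : Fintype.card ((Fin c × Fin 2) ⊕ Fin k) = i' := by
      simp only [Fintype.card_sum, Fintype.card_prod, Fintype.card_fin]
      omega
    let e' : (Fin c × Fin 2) ⊕ Fin k ≃ Fin i' := Fintype.equivFinOfCardEq hcard'
    obtain ⟨g', hg', hg'v⟩ := ih i' k e' (fun s => B s.succ) η (fun s => hB s.succ)
    have hA : ant (B 0) g' ∈ 𝒟 (c + 1) (i' + 2) :=
      hs c i' g' hg' (B 0) (hB 0) _ (fun x => ant_apply (B 0) g' x)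
    let e1 : (Fin (c + 1) × Fin 2) ⊕ Fin k ≃ Fin (i' + 2) :=
      Equiv.ofBijective (pos e') (pos_bij e')
    let ρ : Equiv.Perm (Fin (i' + 2)) := e1.symm.trans e
    have hρ : ∀ x, e x = ρ (e1 x) := fun x => by simp [ρ]
    have hf : (i'.factorial : ℚ) ≠ 0 := by exact_mod_cast Nat.factorial_ne_zero i'
    have hm := ant_main (B 0) g' (term e' (fun s => B s.succ) η) hg'v
    refine ⟨(((Equiv.Perm.sign ρ : ℤ) : ℚ) * ((i'.factorial : ℚ)⁻¹)) • ant (B 0) g',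
      Submodule.smul_mem _ _ hA, fun v => ?_⟩
    have hch := change ρ (fun σ => term e1 B η (fun m => v (σ m)))
    have hl : ∑ σ : Equiv.Perm (Fin (i' + 2)), ((Equiv.Perm.sign σ : ℤ) : ℚ) *
        term e B η (fun m => v (σ m)) = ∑ σ : Equiv.Perm (Fin (i' + 2)),
          ((Equiv.Perm.sign σ : ℤ) : ℚ) * term e1 B η (fun m => v ((σ * ρ) m)) := by
      refine Finset.sum_congr rfl fun σ _ => ?_
      simp only [term, hρ, Equiv.Perm.mul_apply]
    rw [hl, hch, AlternatingMap.smul_apply, hm, smul_eq_mul]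
    have h2 : ∑ σ : Equiv.Perm (Fin (i' + 2)), ((Equiv.Perm.sign σ : ℤ) : ℚ) *
        term e1 B η (fun m => v (σ m)) = ∑ σ : Equiv.Perm (Fin (i' + 2)),
          ((Equiv.Perm.sign σ : ℤ) : ℚ) * (B 0 ![v (σ 0), v (σ 1)] *
            term e' (fun s => B s.succ) η (fun m => v (σ m.succ.succ))) := by
      refine Finset.sum_congr rfl fun σ _ => ?_
      simp only [term]
      rw [Fin.prod_univ_succ]
      simp only [e1, Equiv.ofBijective_apply, pos, Fin.cases_zero, Fin.cases_succ, if_true,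
        one_ne_zero, if_false]
      ring
    rw [h2]
    field_simp

theorem t_V_FAM : V_FAM := by
  intro X 𝒟 h0 hs c i g hg
  obtain ⟨k, e, B, η, hB, hg⟩ := hg
  obtain ⟨g', hg', hv⟩ := exists_form X 𝒟 h0 hs c i k e B η hB
  have : g = g' := by
    ext v
    rw [hg v, hv v]
    rfl
  rw [this]
  exact hg'

end Pool.Agent.T2h43.V15
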